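import Pool.Agent.Helper92.FR.GoalsB

/-! Packet FR-CPV: the values of the cutting plane method. -/

set_option linter.unusedVariables false

namespace Pool.Agent.Helper60.FR

open Pool.Agent.Helper92.FR Pool.Agent.Bin

theorem getD_mr {α : Type} (n : ℕ) (f : ℕ → α) (b : α) {i : ℕ} (h : i < n) :
    ((List.range n).map f).getD i b = f i := by
  rw [List.getD_eq_getElem _ _ (by simpa using h)]
  simp

theorem sum_map_getD {α β : Type} [AddCommMonoid β] (b : α) (h : α → β) :
    ∀ (n : ℕ) (L : List α), L.length = n → (L.map h).sum = ∑ i : Fin n, h (L.getD i b) := by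
  intro n
  induction n with
  | zero =>
    intro L hL
    rw [List.length_eq_zero_iff.1 hL]
    simp
  | succ n ih =>
    intro L hL
    obtain ⟨a, L', rfl⟩ := List.exists_cons_of_length_eq_add_one hL
    rw [Fin.sum_univ_succ, List.map_cons, List.sum_cons, ih L' (by simpa using hL)]
    simp

theorem val_dot : ∀ (d : ℕ) (x y : List Qn), x.length = d → y.length = d →
    (dot x y).val = ∑ l : Fin d, lv d x l * lv d y l := by
  intro d
  induction d with
  | zero =>
    intro x y hx hy
    rw [List.length_eq_zero_iff.1 hx]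
    simp [dot]
  | succ d ih =>
    intro x y hx hy
    obtain ⟨a, x', rfl⟩ := List.exists_cons_of_length_eq_add_one hx
    obtain ⟨b, y', rfl⟩ := List.exists_cons_of_length_eq_add_one hy
    have h := ih x' y' (by simpa using hx) (by simpa using hy)
    unfold dot at h ⊢
    rw [Qn.val_sum] at h ⊢
    rw [List.zipWith_cons_cons, List.map_cons, List.sum_cons, h, Fin.sum_univ_succ]
    simp [lv]

theorem lv_zip (d : ℕ) (x y : List Qn) (hx : x.length = d) (hy : y.length = d) (l : Fin d) :
    lv d (List.zipWith Qn.sub x y) l = lv d x l - lv d y l := by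
  unfold lv
  have h1 : (l : ℕ) < x.length := by rw [hx]; exact l.2
  have h2 : (l : ℕ) < y.length := by rw [hy]; exact l.2
  rw [List.getD_eq_getElem _ _ (by rw [List.length_zipWith]; omega), List.getD_eq_getElem _ _ h1,
    List.getD_eq_getElem _ _ h2, List.getElem_zipWith, Qn.val_sub]

theorem val_invNat {n : ℕ} (h : 1 ≤ n) : (invNat n).val = 1 / (n : ℝ) := by
  unfold invNat Qn.val
  simp only [BN.val_sub, BN.val_ofNat, Nat.cast_one, Nat.cast_zero, sub_zero]
  rw [Nat.cast_sub h]
  simp

theorem val_qNat (n : ℕ) : (qNat n).val = n := by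
  unfold qNat
  rw [Qn.val_ofBN, BN.val_ofNat]

/-- the raw entries of a state -/
def ra (st : Cst) (i l : ℕ) : BN × BN := (st.1.getD i []).getD l (⟨0⟩, ⟨0⟩)

theorem len_get {d : ℕ} {st : Cst} (h : CWf d st) {i : ℕ} (hi : i < d + 1) :
    (st.1.getD i []).length = d := by
  obtain ⟨h1, h2, h3⟩ := h
  rw [List.getD_eq_getElem _ _ (by omega)]
  exact h2 _ (List.getElem_mem _)

theorem VV_eq {d : ℕ} {st : Cst} (h : CWf d st) (i : Fin (d + 1)) (l : Fin d) :
    VV d st i l = (((ra st i l).1.val : ℝ) - (ra st i l).2.val) / st.2.val := by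
  have hl := len_get h i.2
  have h3 := h.2.2
  have hl1 : (l : ℕ) < (st.1.getD (i : ℕ) []).length := by rw [hl]; exact l.2
  unfold VV lv vert ra
  generalize (st.1.getD (i : ℕ) []) = v at hl1 ⊢
  rw [List.getD_eq_getElem _ _ (by rw [List.length_map]; exact hl1),
    List.getD_eq_getElem _ _ hl1, List.getElem_map]
  unfold Qn.val
  simp only [BN.val_sub]
  rw [Nat.cast_sub h3]
  simp

theorem len_vert {d : ℕ} {st : Cst} (h : CWf d st) {i : ℕ} (hi : i < d + 1) :
    (vert st i).length = d := by
  unfold vert
  rw [List.length_map, len_get h hi]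

theorem len_cen (d : ℕ) (st : Cst) : (cen d st).length = d := by
  unfold cen
  rw [List.length_map, List.length_range]

theorem cen_eq {d : ℕ} {st : Cst} (h : CWf d st) : lv d (cen d st) = cent (VV d st) := by
  funext l
  have h3 := h.2.2
  have hpos : (0 : ℝ) < st.2.val := by exact_mod_cast h3
  unfold cent
  simp_rw [VV_eq h]
  unfold lv cen
  rw [getD_mr d _ _ l.2]
  unfold Qn.val
  simp only [BN.val_sum, BN.val_sub, BN.val_mul, BN.val_ofNat, List.map_map]
  rw [sum_map_getD [] _ (d + 1) st.1 h.1, sum_map_getD [] _ (d + 1) st.1 h.1]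
  have h5 : 1 ≤ (d + 1) * st.2.val := Nat.mul_pos (by omega) h3
  rw [Nat.cast_sub h5]
  simp only [Function.comp, ra]
  push_cast
  rw [← Finset.sum_div, Finset.sum_sub_distrib]
  field_simp
  ring

theorem gam_eq {d : ℕ} {st : Cst} (h : CWf d st) (g : List Qn) (hg : g.length = d)
    (i : Fin (d + 1)) : (gam d st g i).val = gamR (VV d st) (lv d g) i := by
  unfold gam gamR
  have h1 := len_vert h i.2
  have h2 := len_cen d st
  rw [val_dot d _ _ hg (by rw [List.length_zipWith, h1, h2, min_self])]
  refine Finset.sum_congr rfl fun l _ => ?_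
  rw [lv_zip d _ _ h1 h2, cen_eq h]
  rfl

theorem sum_gamR {d : ℕ} (V : Fin (d + 1) → Fin d → ℝ) (g : Fin d → ℝ) :
    ∑ i, gamR V g i = 0 := by
  unfold gamR
  rw [Finset.sum_comm]
  refine Finset.sum_eq_zero fun l _ => ?_
  rw [← Finset.mul_sum, Finset.sum_sub_distrib]
  unfold cent
  rw [Finset.sum_const, Finset.card_univ, Fintype.card_fin, nsmul_eq_mul]
  push_cast
  have : ((d : ℝ) + 1) ≠ 0 := by positivity
  field_simp
  ring

theorem amin_spec (d : ℕ) (st : Cst) (g : List Qn) : amin d st g < d + 1 ∧
    ∀ i < d + 1, (gam d st g (amin d st g)).val ≤ (gam d st g i).val := by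
  obtain ⟨i0, hi0, hmin⟩ := Finset.exists_min_image (Finset.range (d + 1))
    (fun i => (gam d st g i).val) ⟨0, by simp⟩
  rw [Finset.mem_range] at hi0
  unfold amin
  cases hf : (List.range (d + 1)).find? (fun i =>
      (List.range (d + 1)).all fun i' => Qn.le (gam d st g i) (gam d st g i')) with
  | none =>
    exfalso
    rw [List.find?_eq_none] at hf
    have := hf i0 (List.mem_range.2 hi0)
    apply this
    rw [List.all_eq_true]
    intro i hi
    rw [Qn.le_iff]
    exact hmin i (Finset.mem_range.2 (List.mem_range.1 hi))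
  | some a =>
    have h1 := List.mem_of_find?_eq_some hf
    have h2 := List.find?_some hf
    rw [Option.getD_some]
    refine ⟨List.mem_range.1 h1, fun i hi => ?_⟩
    rw [List.all_eq_true] at h2
    exact (Qn.le_iff _ _).1 (h2 i (List.mem_range.2 hi))

theorem cpv : CpvStmt := by
  intro d hd
  have hdr : (1 : ℝ) ≤ d := by exact_mod_cast hd
  refine ⟨fun st g hst hg => ?_, fun B => ?_⟩
  · obtain ⟨ha, hmin⟩ := amin_spec d st g
    set m := amin d st g with hm
    have h3 := hst.2.2
    have hpos : (0 : ℝ) < st.2.val := by exact_mod_cast h3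
    have hQ1 : 1 ≤ qsc d := by unfold qsc; exact Nat.mul_pos (by norm_num) (by positivity)
    have hQr : (qsc d : ℝ) = 8 * ((d : ℝ) + 1) ^ 3 := by unfold qsc; push_cast; ring
    have hQ64 : (64 : ℝ) ≤ qsc d := by
      rw [hQr]
      have : (2 : ℝ) ^ 3 ≤ ((d : ℝ) + 1) ^ 3 := pow_le_pow_left₀ (by norm_num) (by linarith) 3
      linarith
    have hQpos : (0 : ℝ) < qsc d := by linarith
    have hwf : CWf d (cut d st g) := by
      refine ⟨?_, ?_, ?_⟩
      · unfold cut
        simp only [List.length_map, List.length_range]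
      · intro v hv
        unfold cut at hv
        simp only [List.mem_map, List.mem_range] at hv
        obtain ⟨i, -, rfl⟩ := hv
        rw [List.length_map, List.length_range]
      · unfold cut
        simp only [BN.val_mul, BN.val_ofNat]
        exact Nat.mul_pos hQ1 h3
    -- the smallest value is nonpositive
    set i0 : Fin (d + 1) := ⟨m, ha⟩ with hi0
    have hminR : ∀ i, gamR (VV d st) (lv d g) i0 ≤ gamR (VV d st) (lv d g) i := by
      intro i
      rw [← gam_eq hst g hg, ← gam_eq hst g hg]
      exact hmin i i.2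
    have hneg : gamR (VV d st) (lv d g) i0 ≤ 0 := by
      by_contra hc
      push Not at hc
      have : 0 < ∑ i, gamR (VV d st) (lv d g) i :=
        Finset.sum_pos (fun i _ => hc.trans_le (hminR i)) ⟨i0, Finset.mem_univ _⟩
      rw [sum_gamR] at this
      exact lt_irrefl _ this
    have hu : ∀ i, 7 / 8 ≤ uu (VV d st) (lv d g) i0 i := by
      intro i
      unfold uu
      have e1 : 0 ≤ (gamR (VV d st) (lv d g) i - gamR (VV d st) (lv d g) i0) *
          (-gamR (VV d st) (lv d g) i0)⁻¹ :=
        mul_nonneg (by linarith [hminR i]) (inv_nonneg.2 (by linarith))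
      have e2 : 1 / (2 * ((d : ℝ) + 1) ^ 2) ≤ 1 / 8 := by
        apply one_div_le_one_div_of_le (by norm_num)
        nlinarith
      have e3 : 0 ≤ 1 / (2 * ((d : ℝ) + 1) ^ 2) := by positivity
      have := mul_nonneg e3 e1
      linarith
    have hn0 : ∀ i : Fin (d + 1), (nfac0 d st g i).val =
        ⌊(qsc d : ℝ) * (uu (VV d st) (lv d g) i0 i)⁻¹⌋₊ + 1 := by
      intro i
      unfold nfac0
      rw [BN.val_add, Qn.fl_eq, Qn.val_mul, Qn.val_inv, Qn.val_add, Qn.val_sub, Qn.val_mul,
        Qn.val_mul, Qn.val_inv, Qn.val_neg, Qn.val_sub, val_qNat, Qn.val_one,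
        val_invNat (Nat.mul_pos (by norm_num) (by positivity)), ← hm, gam_eq hst g hg i,
        show gam d st g m = gam d st g ((i0 : Fin (d + 1)) : ℕ) from rfl, gam_eq hst g hg i0]
      unfold uu
      push_cast
      rfl
    have hn : ∀ i : Fin (d + 1), (nfac d st g i).val =
        ⌊(qsc d : ℝ) * (uu (VV d st) (lv d g) i0 i)⁻¹⌋₊ + 1 := by
      intro i
      unfold nfac
      rw [if_pos, hn0 i]
      rw [BN.le_def, hn0 i, BN.val_ofNat]
      have e1 : (⌊(qsc d : ℝ) * (uu (VV d st) (lv d g) i0 i)⁻¹⌋₊ : ℝ) ≤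
          (qsc d : ℝ) * (uu (VV d st) (lv d g) i0 i)⁻¹ :=
        Nat.floor_le (mul_nonneg hQpos.le (inv_nonneg.2 (by linarith [hu i])))
      have e2 : (uu (VV d st) (lv d g) i0 i)⁻¹ ≤ 8 / 7 := by
        rw [inv_le_comm₀ (by linarith [hu i]) (by norm_num)]
        have := hu i
        norm_num
        linarith
      have e3 : (qsc d : ℝ) * (uu (VV d st) (lv d g) i0 i)⁻¹ ≤ (qsc d : ℝ) * (8 / 7) :=
        mul_le_mul_of_nonneg_left e2 hQpos.le
      have e4 : ((⌊(qsc d : ℝ) * (uu (VV d st) (lv d g) i0 i)⁻¹⌋₊ + 1 : ℕ) : ℝ) ≤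
          ((2 * qsc d : ℕ) : ℝ) := by
        push_cast
        linarith
      exact_mod_cast e4
    refine ⟨hwf, ?_, len_cen d st, cen_eq hst⟩
    refine ⟨i0, fun i => ((nfac d st g i).val : ℝ) / qsc d, hminR, fun i hi => ?_, fun i l => ?_⟩
    · have hui := hu i
      have hup : 0 < uu (VV d st) (lv d g) i0 i := by linarith
      have f1 : (⌊(qsc d : ℝ) * (uu (VV d st) (lv d g) i0 i)⁻¹⌋₊ : ℝ) ≤
          (qsc d : ℝ) * (uu (VV d st) (lv d g) i0 i)⁻¹ :=
        Nat.floor_le (mul_nonneg hQpos.le (inv_nonneg.2 hup.le))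
      have f2 := Nat.lt_floor_add_one ((qsc d : ℝ) * (uu (VV d st) (lv d g) i0 i)⁻¹)
      beta_reduce
      rw [hn i]
      push_cast
      constructor
      · rw [div_mul_eq_mul_div, le_div_iff₀ hQpos, one_mul]
        calc (qsc d : ℝ) = (qsc d : ℝ) * (uu (VV d st) (lv d g) i0 i)⁻¹ *
              uu (VV d st) (lv d g) i0 i := by field_simp
          _ ≤ _ := mul_le_mul_of_nonneg_right f2.le hup.le
      · rw [← hQr, add_div]
        have : (⌊(qsc d : ℝ) * (uu (VV d st) (lv d g) i0 i)⁻¹⌋₊ : ℝ) / qsc d ≤
            1 / uu (VV d st) (lv d g) i0 i := by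
          rw [div_le_iff₀ hQpos]
          calc (⌊(qsc d : ℝ) * (uu (VV d st) (lv d g) i0 i)⁻¹⌋₊ : ℝ) ≤ _ := f1
            _ = _ := by field_simp
        linarith
    · rw [VV_eq hwf, VV_eq hst, VV_eq hst]
      have hra : ra (cut d st g) i l = if (i : ℕ) = m then
          (BN.ofNat (qsc d) * (ra st i l).1, BN.ofNat (qsc d) * (ra st i l).2)
        else
          (BN.ofNat (qsc d) * (ra st m l).1 + nfac d st g i * ((ra st i l).1 + (ra st m l).2),
           BN.ofNat (qsc d) * (ra st m l).2 + nfac d st g i * ((ra st i l).2 + (ra st m l).1)) := by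
        have h0 : (cut d st g).1.getD (i : ℕ) [] = (List.range d).map fun l =>
            if (i : ℕ) = m then
              (BN.ofNat (qsc d) * (ra st i l).1, BN.ofNat (qsc d) * (ra st i l).2)
            else
              (BN.ofNat (qsc d) * (ra st m l).1 + nfac d st g i * ((ra st i l).1 + (ra st m l).2),
               BN.ofNat (qsc d) * (ra st m l).2 +
                nfac d st g i * ((ra st i l).2 + (ra st m l).1)) := by
          unfold cut
          simp only
          rw [getD_mr (d + 1) _ _ i.2]
          rfl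
        conv_lhs => unfold ra
        rw [h0, getD_mr d _ _ l.2]
      have hden : ((cut d st g).2.val : ℝ) = qsc d * st.2.val := by
        unfold cut
        simp only [BN.val_mul, BN.val_ofNat]
        push_cast
        ring
      rw [hra, hden]
      split_ifs with him
      · have hii : i = i0 := Fin.ext him
        subst hii
        simp only [BN.val_mul, BN.val_ofNat]
        push_cast
        field_simp
        ring
      · simp only [BN.val_mul, BN.val_ofNat, BN.val_add]
        rw [show ((i0 : Fin (d + 1)) : ℕ) = m from rfl]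
        push_cast
        field_simp
        ring
  · have hwf : CWf d (cini d B) := by
      refine ⟨?_, ?_, ?_⟩
      · unfold cini
        simp only [List.length_map, List.length_range]
      · intro v hv
        unfold cini at hv
        simp only [List.mem_map, List.mem_range] at hv
        obtain ⟨i, -, rfl⟩ := hv
        rw [List.length_map, List.length_range]
      · unfold cini
        exact le_refl 1
    refine ⟨hwf, fun i l => ?_⟩
    rw [VV_eq hwf]
    have hra : ra (cini d B) i l = if (i : ℕ) = l + 1 then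
        (BN.ofNat (2 * d) * BN.pow2 B, BN.pow2 B) else (⟨0⟩, BN.pow2 B) := by
      unfold ra cini
      simp only
      rw [getD_mr (d + 1) _ _ i.2, getD_mr d _ _ l.2]
    have hden : ((cini d B).2.val : ℝ) = 1 := by
      unfold cini
      simp
    rw [hra, hden]
    split_ifs with him
    · simp only [BN.val_mul, BN.val_ofNat, BN.val_pow2]
      push_cast
      ring
    · simp only [BN.val_pow2]
      push_cast
      ring

end Pool.Agent.Helper60.FR
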